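import Mathlib

namespace Pool.Agent.Results.MP_b34cfe_co.OddFails

/-- `ℓ(n,d)`: the least integer `l ≥ 2^d` that does not divide `n`. -/
noncomputable def ell (n d : ℕ) : ℕ := sInf {l : ℕ | 2 ^ d ≤ l ∧ ¬ l ∣ n}

/-- The modified EGZ constant `s'_m(G)`: the least `L` such that every zero-sum sequence
(multiset) over `G` of length at least `L` has a zero-sum subsequence of length exactly `m`. -/
noncomputable def modEGZ (G : Type) [AddCommGroup G] (m : ℕ) : ℕ :=
  sInf {L : ℕ | ∀ S : Multiset G, S.sum = 0 → L ≤ S.card →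
    ∃ T : Multiset G, T ≤ S ∧ T.sum = 0 ∧ T.card = m}

lemma le_sum_replicate {ι G : Type} [DecidableEq ι] [DecidableEq G] (s : Finset ι) (a : ι → ℕ)
    (x : ι → G) (T : Multiset G) (hT : T ≤ ∑ i ∈ s, Multiset.replicate (a i) (x i)) :
    ∃ k : ι → ℕ, (∀ i, k i ≤ a i) ∧ T = ∑ i ∈ s, Multiset.replicate (k i) (x i) := by
  induction s using Finset.induction_on generalizing T with
  | empty =>
    refine ⟨fun _ => 0, fun _ => Nat.zero_le _, ?_⟩
    simpa using hT
  | insert i s hi ih =>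
    rw [Finset.sum_insert hi] at hT
    set A := Multiset.replicate (a i) (x i) with hA
    have h1 : T - (T ∩ A) ≤ ∑ i ∈ s, Multiset.replicate (a i) (x i) := by
      rw [Multiset.le_iff_count]
      intro g
      have := Multiset.le_iff_count.1 hT g
      rw [Multiset.count_add] at this
      rw [Multiset.count_sub, Multiset.count_inter]
      omega
    obtain ⟨k, hk, hk2⟩ := ih _ h1
    have h2 : T ∩ A ≤ A := Multiset.inter_le_right
    rw [hA, Multiset.le_replicate_iff] at h2
    obtain ⟨c, hc, hc2⟩ := h2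
    refine ⟨Function.update k i c, ?_, ?_⟩
    · intro j
      by_cases hj : j = i
      · subst hj; simpa using hc
      · simpa [Function.update_of_ne hj] using hk j
    · rw [Finset.sum_insert hi]
      have h3 : ∑ j ∈ s, Multiset.replicate (Function.update k i c j) (x j)
          = ∑ j ∈ s, Multiset.replicate (k j) (x j) := by
        apply Finset.sum_congr rfl
        intro j hj
        have : j ≠ i := fun h => hi (h ▸ hj)
        rw [Function.update_of_ne this]
      rw [h3, ← hk2, Function.update_self, ← hc2]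
      rw [← hA]
      exact (add_tsub_cancel_of_le Multiset.inter_le_left).symm

/-- nine points of `{0,1,2}^3` (a complete cap of `AG(3,3)`). -/
def P : Fin 9 → Fin 3 → ℕ :=
  ![![0,0,1], ![0,1,0], ![0,2,0], ![1,0,1], ![1,1,0], ![1,2,0], ![2,0,2], ![2,1,1], ![2,2,1]]

lemma three_cases (n s : ℕ) (hn : 0 < n) (h : n ∣ s) (hs : s ≤ 2 * n) :
    s = 0 ∨ s = n ∨ s = 2 * n := by
  obtain ⟨c, rfl⟩ := h
  have hc : c ≤ 2 := by
    by_contra hc
    have : n * 3 ≤ n * c := Nat.mul_le_mul_left n (by omega)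
    omega
  interval_cases c
  · left; simp
  · right; left; simp
  · right; right; ring

lemma arith' (n r a b c d e f g h i : ℕ) (hr : n = 2 * r + 1)
    (ha : a ≤ n - 1) (hb : b ≤ n - 1) (hc : c ≤ n - 1) (hd : d ≤ n - 1) (he : e ≤ n - 1)
    (hf : f ≤ n - 1) (hg : g ≤ n - 1) (hh : h ≤ n - 1) (hi : i ≤ n - 1)
    (hs : a + b + c + d + e + f + g + h + i = n)
    (h0 : d + e + f + 2 * g + 2 * h + 2 * i = 0 ∨ d + e + f + 2 * g + 2 * h + 2 * i = n ∨
      d + e + f + 2 * g + 2 * h + 2 * i = 2 * n)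
    (h1 : b + 2 * c + e + 2 * f + h + 2 * i = 0 ∨ b + 2 * c + e + 2 * f + h + 2 * i = n ∨
      b + 2 * c + e + 2 * f + h + 2 * i = 2 * n)
    (h2 : a + d + 2 * g + h + i = 0 ∨ a + d + 2 * g + h + i = n ∨
      a + d + 2 * g + h + i = 2 * n) : False := by
  rcases h0 with h0 | h0 | h0 <;> rcases h1 with h1 | h1 | h1 <;> rcases h2 with h2 | h2 | h2 <;>
    omega

lemma sum9 (f : Fin 9 → ℕ) : ∑ i, f i = f 0 + f 1 + f 2 + f 3 + f 4 + f 5 + f 6 + f 7 + f 8 := by
  rw [Fin.sum_univ_castSucc, Fin.sum_univ_eight]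
  rfl

lemma arith (n : ℕ) (hn : Odd n) (k : Fin 9 → ℕ) (hk : ∀ i, k i ≤ n - 1)
    (hsum : ∑ i, k i = n) (h : ∀ j, n ∣ ∑ i, k i * P i j) : False := by
  obtain ⟨r, hr⟩ := hn
  have e0 := h 0
  have e1 := h 1
  have e2 := h 2
  rw [sum9] at e0 e1 e2 hsum
  simp [P] at e0 e1 e2
  have hn : 0 < n := by omega
  refine arith' n r (k 0) (k 1) (k 2) (k 3) (k 4) (k 5) (k 6) (k 7) (k 8) hr (hk _) (hk _) (hk _)
    (hk _) (hk _) (hk _) (hk _) (hk _) (hk _) hsum ?_ ?_ ?_
  · apply three_cases n _ hn _ (by omega)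
    convert e0 using 1; ring
  · apply three_cases n _ hn _ (by omega)
    convert e1 using 1; ring
  · apply three_cases n _ hn _ (by omega)
    convert e2 using 1; ring

lemma sum_sum_replicate {ι G : Type} [AddCommGroup G] (s : Finset ι) (a : ι → ℕ) (x : ι → G) :
    (∑ i ∈ s, Multiset.replicate (a i) (x i)).sum = ∑ i ∈ s, a i • x i := by
  classical
  induction s using Finset.induction_on with
  | empty => simp
  | insert i s hi ih => rw [Finset.sum_insert hi, Finset.sum_insert hi, Multiset.sum_add, ih,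
      Multiset.sum_replicate]

lemma card_sum_replicate {ι G : Type} (s : Finset ι) (a : ι → ℕ) (x : ι → G) :
    (∑ i ∈ s, Multiset.replicate (a i) (x i)).card = ∑ i ∈ s, a i := by
  simp [Multiset.card_sum]

/-- Main construction. -/
lemma construction (n k : ℕ) (hn : Odd n) (h3 : 3 ≤ n) (hk : k ≤ n - 2)
    (hco : Nat.Coprime (9 + k) n) :
    ∃ S : Multiset (Fin 3 → ZMod n), S.sum = 0 ∧ 8 * n - 7 ≤ S.card ∧
      ∀ T : Multiset (Fin 3 → ZMod n), T ≤ S → T.sum = 0 → T.card ≠ n := by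
  classical
  have : NeZero n := ⟨by omega⟩
  -- the unit 9 + k
  obtain ⟨u, hu⟩ : ∃ u : ZMod n, ((9 + k : ℕ) : ZMod n) * u = 1 := by
    refine ⟨((ZMod.unitOfCoprime (9 + k) hco)⁻¹ : (ZMod n)ˣ), ?_⟩
    rw [← ZMod.coe_unitOfCoprime (9 + k) hco, Units.mul_inv]
  let v : Fin 3 → ZMod n := fun j => - ((((∑ i, P i j) + k * P 0 j : ℕ) : ZMod n) * u)
  let x : Fin 9 → Fin 3 → ZMod n := fun i j => (P i j : ZMod n) + v j
  let a : Fin 9 → ℕ := fun i => if i = 0 then n - 1 - k else n - 1
  have hn1 : ((n - 1 : ℕ) : ZMod n) = -1 := by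
    have : ((n - 1 : ℕ) : ZMod n) + 1 = 0 := by
      have h1 : n - 1 + 1 = n := by omega
      have : (((n - 1 : ℕ) + 1 : ℕ) : ZMod n) = 0 := by rw [h1]; simp
      simpa using this
    exact eq_neg_of_add_eq_zero_left this
  have hn2 : ((n - 1 - k : ℕ) : ZMod n) = -1 - k := by
    have h1 : n - 1 - k + k = n - 1 := by omega
    have : (((n - 1 - k : ℕ) + k : ℕ) : ZMod n) = -1 := by rw [h1, hn1]
    push_cast at this
    exact eq_sub_of_add_eq this
  refine ⟨∑ i : Fin 9, Multiset.replicate (a i) (x i), ?_, ?_, ?_⟩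
  · -- zero sum
    rw [sum_sum_replicate]
    funext j
    rw [Finset.sum_apply]
    have e : ∀ i, (a i • x i) j = (-1 - (if i = 0 then (k : ZMod n) else 0)) * x i j := by
      intro i
      rw [Pi.smul_apply, nsmul_eq_mul]
      congr 1
      by_cases hi : i = 0
      · simp only [a, hi, if_true]; exact hn2
      · simp only [a, hi, if_false]; rw [hn1]; ring
    rw [Finset.sum_congr rfl (fun i _ => e i)]
    have e2 : ∑ i, (-1 - (if i = 0 then (k : ZMod n) else 0)) * x i j
        = -(∑ i, x i j) - k * x 0 j := by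
      have : ∀ i, (-1 - (if i = 0 then (k : ZMod n) else 0)) * x i j
          = -(x i j) - (if i = 0 then (k : ZMod n) * x i j else 0) := by
        intro i; split_ifs <;> ring
      rw [Finset.sum_congr rfl (fun i _ => this i), Finset.sum_sub_distrib, Finset.sum_neg_distrib]
      simp
    rw [e2]
    have e3 : ∑ i, x i j = ((∑ i, P i j : ℕ) : ZMod n) + 9 * v j := by
      simp only [x]
      rw [Finset.sum_add_distrib]
      simp
    rw [e3]
    have e4 : ((9 + k : ℕ) : ZMod n) * v j = -(((∑ i, P i j) + k * P 0 j : ℕ) : ZMod n) := by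
      simp only [v]
      calc ((9 + k : ℕ) : ZMod n) * -((((∑ i, P i j) + k * P 0 j : ℕ) : ZMod n) * u)
          = -((((∑ i, P i j) + k * P 0 j : ℕ) : ZMod n) * (((9 + k : ℕ) : ZMod n) * u)) := by ring
        _ = _ := by rw [hu, mul_one]
    simp only [x]
    push_cast at e4 ⊢
    simp only [Pi.zero_apply]
    linear_combination (-1 : ZMod n) * e4
  · -- length
    rw [card_sum_replicate, sum9]
    simp [a]
    omega
  · intro T hT hT0 hcard
    obtain ⟨c, hc, rfl⟩ := le_sum_replicate Finset.univ a x T hT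
    rw [card_sum_replicate] at hcard
    rw [sum_sum_replicate] at hT0
    apply arith n hn c (fun i => le_trans (hc i) _) hcard
    · intro j
      have h1 := congrFun hT0 j
      rw [Finset.sum_apply] at h1
      have h2 : ∀ i, (c i • x i) j = ((c i * P i j : ℕ) : ZMod n) + (c i : ZMod n) * v j := by
        intro i
        rw [Pi.smul_apply, nsmul_eq_mul]
        simp only [x]; push_cast; ring
      rw [Finset.sum_congr rfl (fun i _ => h2 i), Finset.sum_add_distrib, ← Finset.sum_mul,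
        ← Nat.cast_sum, ← Nat.cast_sum, hcard] at h1
      simp only [ZMod.natCast_self, zero_mul, add_zero, Pi.zero_apply] at h1
      exact (ZMod.natCast_eq_zero_iff _ _).1 h1
    · intro i
      simp only [a]
      split_ifs <;> omega

lemma odd_seq (n : ℕ) (hn : Odd n) (h3 : 3 ≤ n) :
    ∃ S : Multiset (Fin 3 → ZMod n), S.sum = 0 ∧ 8 * n - 7 ≤ S.card ∧
      ∀ T : Multiset (Fin 3 → ZMod n), T ≤ S → T.sum = 0 → T.card ≠ n := by
  by_cases h9 : 9 ≤ n
  · refine construction n 7 hn h3 (by omega) ?_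
    have : (9 + 7) = 2 ^ 4 := by norm_num
    rw [this]
    exact Nat.Coprime.pow_left 4 ((Nat.coprime_two_left).2 hn)
  · obtain ⟨r, hr⟩ := hn
    have : n = 3 ∨ n = 5 ∨ n = 7 := by omega
    rcases this with rfl | rfl | rfl
    · exact construction 3 1 (by decide) (by norm_num) (by norm_num) (by norm_num)
    · exact construction 5 0 (by decide) (by norm_num) (by norm_num) (by norm_num)
    · exact construction 7 0 (by decide) (by norm_num) (by norm_num) (by norm_num)

/-- The set defining `s'_m` is nonempty when `m • g = 0` for all `g` (pigeonhole). -/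
lemma modEGZ_nonempty {G : Type} [AddCommGroup G] [Fintype G] [DecidableEq G] (m : ℕ)
    (h : ∀ g : G, m • g = 0) :
    {L : ℕ | ∀ S : Multiset G, S.sum = 0 → L ≤ S.card →
      ∃ T : Multiset G, T ≤ S ∧ T.sum = 0 ∧ T.card = m}.Nonempty := by
  refine ⟨Fintype.card G * m, ?_⟩
  intro S _ hS
  have : ∃ g : G, m ≤ S.count g := by
    by_contra hcon
    push Not at hcon
    have h1 : S.card = ∑ g : G, S.count g := by
      rw [Multiset.sum_count_eq_card]
      intro a _; exact Finset.mem_univ a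
    have h2 : ∑ g : G, S.count g < ∑ g : G, m :=
      Finset.sum_lt_sum_of_nonempty ⟨0, Finset.mem_univ _⟩ (fun g _ => hcon g)
    simp at h2
    omega
  obtain ⟨g, hg⟩ := this
  refine ⟨Multiset.replicate m g, ?_, ?_, by simp⟩
  · exact Multiset.le_count_iff_replicate_le.1 hg
  · rw [Multiset.sum_replicate]; exact h g

lemma lt_modEGZ {G : Type} [AddCommGroup G] [Fintype G] [DecidableEq G] (m B : ℕ)
    (h : ∀ g : G, m • g = 0) (S : Multiset G) (hS : S.sum = 0) (hB : B ≤ S.card)
    (hno : ∀ T : Multiset G, T ≤ S → T.sum = 0 → T.card ≠ m) : B < modEGZ G m := by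
  have hmem := Nat.sInf_mem (modEGZ_nonempty (G := G) m h)
  by_contra hcon
  push Not at hcon
  obtain ⟨T, h1, h2, h3⟩ := hmem S hS (le_trans hcon hB)
  exact hno T h1 h2 h3

lemma ell_odd (n : ℕ) (hn : Odd n) : ell n 3 = 8 := by
  unfold ell
  apply le_antisymm
  · apply Nat.sInf_le
    refine ⟨by norm_num, ?_⟩
    intro h8
    have : 2 ∣ n := dvd_trans (by norm_num) h8
    exact (Nat.not_even_iff_odd.2 hn) (even_iff_two_dvd.2 this)
  · apply le_csInf
    · refine ⟨8, by norm_num, ?_⟩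
      intro h8
      have : 2 ∣ n := dvd_trans (by norm_num) h8
      exact (Nat.not_even_iff_odd.2 hn) (even_iff_two_dvd.2 this)
    · intro b hb
      have := hb.1
      norm_num at this
      exact this

theorem odd_fails (n : ℕ) (hn : Odd n) (h3 : 3 ≤ n) :
    ((1 : ℤ) + 2 ^ 3 - 1) * n - ell n 3 + 1 < modEGZ (Fin 3 → ZMod n) (n * 1) := by
  have : NeZero n := ⟨by omega⟩
  obtain ⟨S, h1, h2, h4⟩ := odd_seq n hn h3
  have := lt_modEGZ (G := Fin 3 → ZMod n) n (8 * n - 7)
    (fun g => by funext j; simp) S h1 h2 h4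
  rw [ell_odd n hn, mul_one]
  omega

/-- Q1 fails, for `d = 3`, `t = 1` and every odd `n ≥ 3`. -/
theorem result :
    (∀ n : ℕ, Odd n → 3 ≤ n →
      (∃ S : Multiset (Fin 3 → ZMod n), S.sum = 0 ∧
        ((1 : ℤ) + 2 ^ 3 - 1) * n - ell n 3 + 1 ≤ S.card ∧
        ∀ T : Multiset (Fin 3 → ZMod n), T ≤ S → T.sum = 0 → T.card ≠ n * 1) ∧
      ((1 : ℤ) + 2 ^ 3 - 1) * n - ell n 3 + 1 < modEGZ (Fin 3 → ZMod n) (n * 1)) ∧
    ¬ ∀ n t d : ℕ, 0 < n → 0 < t → 0 < d →
      (modEGZ (Fin d → ZMod n) (n * t) : ℤ) ≤ ((t : ℤ) + 2 ^ d - 1) * n - ell n d + 1 := by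
  refine ⟨fun n hn h3 => ⟨?_, odd_fails n hn h3⟩, fun h => ?_⟩
  · obtain ⟨S, h1, h2, h4⟩ := odd_seq n hn h3
    refine ⟨S, h1, ?_, ?_⟩
    · rw [ell_odd n hn]; omega
    · rw [mul_one]; exact h4
  · have h1 := h 3 1 3 (by norm_num) (by norm_num) (by norm_num)
    have h2 := odd_fails 3 (by decide) (by norm_num)
    push_cast at h1 h2
    omega

end Pool.Agent.Results.MP_b34cfe_co.OddFails
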